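import Pool.Agent.helper62.DP8.Spec

set_option autoImplicit false

namespace Pool.Agent.helper62.DP8

theorem EXT_dist {V : Type} [DecidableEq V] [Fintype V] (G : SimpleGraph V) (hc : G.Connected) (S : Finset V)
    (hS : S.Nonempty) : ∃ d : V → ℕ, ∀ v, v ∉ S → ∃ w, G.Adj v w ∧ d w < d v := by
  classical
  have hne : ∀ v : V, ∃ n, ∃ x ∈ S, G.dist v x = n := by
    intro v
    obtain ⟨x, hx⟩ := hS
    exact ⟨G.dist v x, x, hx, rfl⟩
  refine ⟨fun v => Nat.find (hne v), ?_⟩
  intro v hv
  obtain ⟨x, hx, hd⟩ := Nat.find_spec (hne v)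
  obtain ⟨p, hp⟩ := hc.exists_walk_length_eq_dist v x
  cases p with
  | nil => exact absurd hx hv
  | @cons _ w _ h q =>
    refine ⟨w, h, ?_⟩
    have h1 : Nat.find (hne w) ≤ G.dist w x := Nat.find_min' (hne w) ⟨x, hx, rfl⟩
    have h2 : G.dist w x ≤ q.length := SimpleGraph.dist_le q
    have h3 : q.length + 1 = G.dist v x := by
      rw [← hp]; rfl
    show Nat.find (hne w) < Nat.find (hne v)
    omega

theorem EXT_ind (hDEL : DEL_stmt) (V : Type) [DecidableEq V] (G : SimpleGraph V) (S : Finset V)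
    (hS : ∀ x ∈ S, ∃ y ∈ S, G.Adj x y) (s : V → ℕ) (hP : Pc (sq G) S s) (d : V → ℕ) :
    ∀ n : ℕ, ∀ T : Finset V, S ⊆ T → (T \ S).card = n → (∀ v ∈ T \ S, ∃ w ∈ T, G.Adj v w ∧ d w < d v) →
      Pc (sq G) T s := by
  intro n
  induction n with
  | zero =>
    intro T hST hc _
    have h1 : T \ S = ∅ := Finset.card_eq_zero.mp hc
    have h2 : T = S := by
      apply Finset.Subset.antisymm _ hST
      exact Finset.sdiff_eq_empty_iff_subset.mp h1
    rw [h2]; exact hP
  | succ n ih =>
    intro T hST hc hT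
    have hne : (T \ S).Nonempty := by
      rw [← Finset.card_pos]; omega
    obtain ⟨v, hv, hmax⟩ := Finset.exists_max_image (T \ S) d hne
    have hvT : v ∈ T := (Finset.mem_sdiff.mp hv).1
    have hvS : v ∉ S := (Finset.mem_sdiff.mp hv).2
    have hsd : (T.erase v) \ S = (T \ S).erase v := by
      ext u
      simp only [Finset.mem_sdiff, Finset.mem_erase]
      tauto
    apply hDEL V (sq G) T s v hvT
    · obtain ⟨w, hwT, hvw, hdw⟩ := hT v hv
      have hex : ∃ u ∈ T, G.Adj w u ∧ u ≠ v := by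
        by_cases hwS : w ∈ S
        · obtain ⟨y, hy, hwy⟩ := hS w hwS
          refine ⟨y, hST hy, hwy, ?_⟩
          rintro rfl
          exact hvS hy
        · obtain ⟨u, huT, hwu, hdu⟩ := hT w (Finset.mem_sdiff.mpr ⟨hwT, hwS⟩)
          refine ⟨u, huT, hwu, ?_⟩
          rintro rfl
          omega
      obtain ⟨u, huT, hwu, huv⟩ := hex
      have h2 : 2 ≤ dg (sq G) T v := by
        unfold dg
        refine (Finset.card_pair hwu.ne).symm.le.trans (Finset.card_le_card ?_)
        intro z hz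
        simp only [Finset.mem_insert, Finset.mem_singleton] at hz
        simp only [Finset.mem_filter]
        rcases hz with rfl | rfl
        · exact ⟨hwT, hvw.ne, Or.inl hvw⟩
        · exact ⟨huT, fun h => huv h.symm, Or.inr ⟨w, hvw, hwu⟩⟩
      omega
    · apply ih (T.erase v)
      · intro x hx
        rw [Finset.mem_erase]
        refine ⟨?_, hST hx⟩
        rintro rfl
        exact hvS hx
      · rw [hsd, Finset.card_erase_of_mem hv, hc]; rfl
      · intro u hu
        rw [hsd] at hu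
        obtain ⟨huv, hu2⟩ := Finset.mem_erase.mp hu
        obtain ⟨w, hwT, huw, hdw⟩ := hT u hu2
        refine ⟨w, ?_, huw, hdw⟩
        rw [Finset.mem_erase]
        refine ⟨?_, hwT⟩
        rintro rfl
        have := hmax u hu2
        omega

theorem EXT (hDEL : DEL_stmt) : EXT_stmt := by
  intro V _ _ G hc S hS hSS s hP
  obtain ⟨d, hd⟩ := EXT_dist G hc S hS
  apply EXT_ind hDEL V G S hSS s hP d ((Finset.univ \ S).card) Finset.univ (Finset.subset_univ S) rfl
  intro v hv
  obtain ⟨w, h1, h2⟩ := hd v (Finset.mem_sdiff.mp hv).2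
  exact ⟨w, Finset.mem_univ w, h1, h2⟩

end Pool.Agent.helper62.DP8
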